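import Pool.Agent.H90.STK.Stmts

/-!
# A sum of independent variables has at least the entropy of each partial sum
-/

set_option autoImplicit false

namespace Pool.STK

open Finset Real MeasureTheory
open Pool.Agent.H49.Ent Pool.Agent.H32.Dense

theorem sum_thm (hPRD : PRDStmt) (hPRM : PRMStmt) : SUMStmt := by
  intro Ω ι κ G _ _ _ _ _ _ p A γ σ hp hσ
  classical
  obtain ⟨hP, -, -⟩ := hPRD Ω ι Ω p hp
  have hadd := (hPRD Ω ι Ω p hp).2.2
  have hadd' := (hPRD Ω ι (Option Ω) p hp).2.2
  set P : (ι → Ω) → ℝ := prd p with hPdef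
  set R : Finset ι := univ.image σ with hR
  have hmem : ∀ i, σ i ∈ R := fun i => Finset.mem_image_of_mem σ (Finset.mem_univ i)
  set U : (ι → Ω) → ι → Option Ω :=
    fun w i => (if i ∈ R then (some : Ω → Option Ω) else fun _ => none) (w i) with hU
  set V : (ι → Ω) → ι → Option Ω :=
    fun w i => (if i ∈ R then (fun _ => none) else (some : Ω → Option Ω)) (w i) with hV
  have eF : H P (fun w i => w i) = ∑ i : ι, H p (fun ω => ω) := hadd fun _ ω => ω
  have eU : H P U = ∑ i : ι, H p (if i ∈ R then (some : Ω → Option Ω) else fun _ => none) :=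
    hadd' fun i => if i ∈ R then (some : Ω → Option Ω) else fun _ => none
  have eV : H P V = ∑ i : ι, H p (if i ∈ R then (fun _ => none) else (some : Ω → Option Ω)) :=
    hadd' fun i => if i ∈ R then (fun _ => none) else (some : Ω → Option Ω)
  have hsome : H p (some : Ω → Option Ω) = H p (fun ω => ω) :=
    H_comp_injective hp.nonneg (fun ω => ω) (Option.some_injective Ω)
  have hnone : H p (fun _ : Ω => (none : Option Ω)) = 0 := H_const hp.sum_one none
  have eUV : H P U + H P V = H P (fun w i => w i) := by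
    rw [eF, eU, eV, ← Finset.sum_add_distrib]
    refine Finset.sum_congr rfl fun i _ => ?_
    by_cases h : i ∈ R
    · rw [if_pos h, if_pos h, hsome, hnone, add_zero]
    · rw [if_neg h, if_neg h, hsome, hnone, zero_add]
  set T₁ : (ι → Ω) → G := fun w => ∑ i, γ (σ i) • A (w (σ i)) with hT₁
  set T : (ι → Ω) → G := fun w => ∑ i, γ i • A (w i) with hT
  have e1 : H (prd p : (κ → Ω) → ℝ) (fun w => ∑ i, γ (σ i) • A (w i)) = H P T₁ :=
    ((hPRM Ω ι κ p hp σ hσ).H fun w => ∑ i, γ (σ i) • A (w i)).symm
  have hUi : ∀ w w' : ι → Ω, U w = U w' → ∀ i ∈ R, w i = w' i := by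
    intro w w' h i hi
    have := congrFun h i
    simp only [hU, if_pos hi, Option.some.injEq] at this
    exact this
  have hVi : ∀ w w' : ι → Ω, V w = V w' → ∀ i, i ∉ R → w i = w' i := by
    intro w w' h i hi
    have := congrFun h i
    simp only [hV, if_neg hi, Option.some.injEq] at this
    exact this
  have hsplit : ∀ w : ι → Ω, T w = T₁ w + ∑ i ∈ univ \ R, γ i • A (w i) := by
    intro w
    have h1 : ∑ i ∈ R, γ i • A (w i) = T₁ w := by
      rw [hR, Finset.sum_image (fun a _ b _ h => hσ h)]
    rw [← h1, add_comm, Finset.sum_sdiff (Finset.subset_univ R)]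
  have s1 : H P (fun w i => w i) + H P T₁ ≤ H P U + H P (fun w => (T₁ w, V w)) := by
    refine submod hP.nonneg (X := U) (Y := fun w => (T₁ w, V w)) (Z := T₁)
      (W := fun w i => w i) ?_ ?_ ?_
    · intro w w' _ _ h
      simp only [hT₁]
      refine Finset.sum_congr rfl fun i _ => ?_
      rw [hUi w w' h _ (hmem i)]
    · intro w w' _ _ h
      exact (Prod.ext_iff.mp h).1
    · intro w w' _ _ h
      have h1 := (Prod.ext_iff.mp h).1
      have h2 := (Prod.ext_iff.mp (Prod.ext_iff.mp h).2).2
      funext i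
      by_cases hi : i ∈ R
      · exact hUi w w' h1 i hi
      · exact hVi w w' h2 i hi
  have s2 : H P (fun w => (T₁ w, V w)) ≤ H P (fun w => (T w, V w)) := by
    refine H_mono hP.nonneg ?_
    intro w w' _ _ h
    have h1 : T w = T w' := (Prod.ext_iff.mp h).1
    have h2 : V w = V w' := (Prod.ext_iff.mp h).2
    refine Prod.ext ?_ h2
    have h3 : ∑ i ∈ univ \ R, γ i • A (w i) = ∑ i ∈ univ \ R, γ i • A (w' i) := by
      refine Finset.sum_congr rfl fun i hi => ?_
      rw [hVi w w' h2 i (Finset.mem_sdiff.mp hi).2]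
    rw [hsplit w, hsplit w', h3] at h1
    exact add_right_cancel h1
  have s3 : H P (fun w => (T w, V w)) ≤ H P T + H P V :=
    subadd hP.nonneg hP.sum_one (X := T) (Y := V) (W := fun w => (T w, V w))
      (fun _ _ _ _ e => e)
  rw [e1]
  linarith

end Pool.STK
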